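import Pool.Agent.H232.QT.D1

/-!
Project QT (helper232), part MN: the least angle is determined (Mellin transform and its pole).
-/

set_option autoImplicit false

namespace Pool.Agent.H390.QT

open MeasureTheory Set Filter Topology
open Pool.Agent.H232.QT
open scoped Real

/-- `∫ f cosh^{-z}` -/
noncomputable def W (f : ℝ → ℝ) (z : ℝ) : ℝ := ∫ u, f u * Real.cosh u ^ (-z)

theorem cosh_pos' (u : ℝ) : 0 < Real.cosh u := Real.cosh_pos u

theorem cont_cosh (z : ℝ) : Continuous fun u : ℝ => Real.cosh u ^ (-z) := by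
  refine Real.continuous_cosh.rpow_const fun u => Or.inl (Real.cosh_pos u).ne'

theorem cosh_le_exp (u : ℝ) : Real.cosh u ≤ Real.exp |u| := by
  rw [← Real.cosh_abs, Real.cosh_eq]
  have h1 : Real.exp (-|u|) ≤ Real.exp |u| := Real.exp_le_exp.2 (by linarith [abs_nonneg u])
  linarith

theorem exp_le_cosh (u : ℝ) : Real.exp |u| ≤ 2 * Real.cosh u := by
  rw [← Real.cosh_abs, Real.cosh_eq]
  have h1 : 0 < Real.exp (-|u|) := Real.exp_pos _
  linarith

theorem int_exp_abs {r : ℝ} (hr : 0 < r) : Integrable fun u : ℝ => Real.exp (-(r * |u|)) := by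
  have h1 : IntegrableOn (fun u : ℝ => Real.exp (-(r * |u|))) (Ioi 0) := by
    have h2 : IntegrableOn (fun u : ℝ => Real.exp (-r * u)) (Ioi 0) := exp_neg_integrableOn_Ioi 0 hr
    refine h2.congr_fun (fun u hu => ?_) measurableSet_Ioi
    change Real.exp (-r * u) = Real.exp (-(r * |u|))
    rw [abs_of_pos hu]
    congr 1
    ring
  have h3 : IntegrableOn (fun u : ℝ => Real.exp (-(r * |u|))) (Iic 0) := by
    have h4 := h1.comp_neg
    rw [Set.neg_Ioi, neg_zero] at h4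
    have h5 : IntegrableOn (fun u : ℝ => Real.exp (-(r * |u|))) (Iio 0) := by
      simpa using h4
    exact (integrableOn_Iic_iff_integrableOn_Iio).2 h5
  rw [← integrableOn_univ, ← Iic_union_Ioi (a := (0 : ℝ))]
  exact h3.union h1

theorem int_cosh {z : ℝ} (hz : 0 < z) : Integrable fun u : ℝ => Real.cosh u ^ (-z) := by
  refine ((int_exp_abs hz).const_mul (2 ^ z)).mono' (cont_cosh z).aestronglyMeasurable
    (Eventually.of_forall fun u => ?_)
  rw [Real.norm_of_nonneg (Real.rpow_nonneg (Real.cosh_pos u).le _)]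
  have h1 := exp_le_cosh u
  have h2 : (Real.exp |u|) ^ z ≤ (2 * Real.cosh u) ^ z :=
    Real.rpow_le_rpow (Real.exp_pos _).le h1 hz.le
  rw [Real.mul_rpow (by norm_num) (Real.cosh_pos u).le, ← Real.exp_mul] at h2
  rw [Real.rpow_neg (Real.cosh_pos u).le, Real.exp_neg, ← div_eq_mul_inv, le_div_iff₀
    (Real.exp_pos _), inv_mul_le_iff₀ (Real.rpow_pos_of_pos (Real.cosh_pos u) _)]
  calc Real.exp (z * |u|) = Real.exp (|u| * z) := by rw [mul_comm]
    _ ≤ 2 ^ z * Real.cosh u ^ z := h2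
    _ = Real.cosh u ^ z * 2 ^ z := mul_comm _ _

/-- decay of `f` -/
def Dec (f : ℝ → ℝ) (r : ℝ) : Prop :=
  Continuous f ∧ (∀ u, 0 ≤ f u) ∧ ∃ C, ∀ u, f u ≤ C * Real.cosh u ^ (-r)

theorem Dec.int {f : ℝ → ℝ} {r : ℝ} (h : Dec f r) {z : ℝ} (hz : -r < z) :
    Integrable fun u => f u * Real.cosh u ^ (-z) := by
  obtain ⟨hc, h0, C, hC⟩ := h
  refine ((int_cosh (z := r + z) (by linarith)).const_mul C).mono'
    (hc.mul (cont_cosh z)).aestronglyMeasurable (Eventually.of_forall fun u => ?_)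
  have h1 : 0 ≤ Real.cosh u ^ (-z) := Real.rpow_nonneg (Real.cosh_pos u).le _
  rw [Real.norm_of_nonneg (mul_nonneg (h0 u) h1), show -(r + z) = -r + -z by ring,
    Real.rpow_add (Real.cosh_pos u), ← mul_assoc]
  exact mul_le_mul_of_nonneg_right (hC u) h1

theorem Dec.ana {f : ℝ → ℝ} {r : ℝ} (h : Dec f r) : AnalyticOnNhd ℝ (W f) (Ioi (-r)) := by
  set μ : Measure ℝ := volume.withDensity fun u => ENNReal.ofReal (f u) with hμ
  have hm : Measurable fun u => ENNReal.ofReal (f u) := h.1.measurable.ennreal_ofReal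
  have hexp : ∀ (z u : ℝ), Real.cosh u ^ (-z) = Real.exp (-z * Real.log (Real.cosh u)) := by
    intro z u
    rw [Real.rpow_def_of_pos (Real.cosh_pos u), mul_comm]
  have hW : ∀ z, W f z = ProbabilityTheory.mgf (fun u => Real.log (Real.cosh u)) μ (-z) := by
    intro z
    rw [ProbabilityTheory.mgf, hμ, integral_withDensity_eq_integral_toReal_smul hm
      (Eventually.of_forall fun u => ENNReal.ofReal_lt_top), W]
    refine integral_congr_ae (Eventually.of_forall fun u => ?_)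
    change f u * _ = (ENNReal.ofReal (f u)).toReal • _
    rw [ENNReal.toReal_ofReal (h.2.1 u), smul_eq_mul, hexp]
  have hset : Iio r ⊆ ProbabilityTheory.integrableExpSet (fun u => Real.log (Real.cosh u)) μ := by
    intro t ht
    rw [ProbabilityTheory.integrableExpSet, mem_ofPred_eq, hμ,
      integrable_withDensity_iff_integrable_smul' hm
        (Eventually.of_forall fun u => ENNReal.ofReal_lt_top)]
    have h1 := h.int (z := -t) (by simpa using ht)
    refine h1.congr (Eventually.of_forall fun u => ?_)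
    change f u * _ = (ENNReal.ofReal (f u)).toReal • _
    rw [ENNReal.toReal_ofReal (h.2.1 u), smul_eq_mul, hexp, neg_neg]
  have hfun : W f = fun z => ProbabilityTheory.mgf (fun u => Real.log (Real.cosh u)) μ (-z) :=
    funext hW
  intro z hz
  rw [hfun]
  have h2 : AnalyticAt ℝ (ProbabilityTheory.mgf (fun u => Real.log (Real.cosh u)) μ) (-z) := by
    refine ProbabilityTheory.analyticAt_mgf ?_
    refine interior_mono hset ?_
    rw [interior_Iio]
    rw [mem_Ioi] at hz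
    rw [mem_Iio]
    linarith
  exact h2.fun_comp analyticAt_id.neg

theorem W_one_rec {w : ℝ} (hw : 0 < w) :
    w * W (fun _ => 1) w = (w + 1) * W (fun _ => 1) (w + 2) := by
  have hi1 : Integrable fun u : ℝ => Real.cosh u ^ (-w) := int_cosh hw
  have hi2 : Integrable fun u : ℝ => Real.cosh u ^ (-(w + 2)) := int_cosh (by linarith)
  have hd : ∀ u : ℝ, HasDerivAt (fun u => Real.sinh u * Real.cosh u ^ (-(w + 1)))
      ((w + 1) * Real.cosh u ^ (-(w + 2)) - w * Real.cosh u ^ (-w)) u := by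
    intro u
    have hp := Real.cosh_pos u
    have h1 : HasDerivAt (fun u => Real.cosh u ^ (-(w + 1)))
        (Real.sinh u * (-(w + 1)) * Real.cosh u ^ (-(w + 1) - 1)) u :=
      (Real.hasDerivAt_cosh u).rpow_const (Or.inl hp.ne')
    have h2 : HasDerivAt (fun u => Real.sinh u * Real.cosh u ^ (-(w + 1)))
        (Real.cosh u * Real.cosh u ^ (-(w + 1)) +
          Real.sinh u * (Real.sinh u * (-(w + 1)) * Real.cosh u ^ (-(w + 1) - 1))) u :=
      (Real.hasDerivAt_sinh u).mul h1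
    refine h2.congr_deriv ?_
    have h3 : Real.cosh u ^ (-w) = Real.cosh u ^ (-(w + 2)) * Real.cosh u ^ 2 := by
      rw [← Real.rpow_natCast, ← Real.rpow_add hp]
      congr 1
      push_cast
      ring
    have h4 : Real.cosh u ^ (-(w + 1)) = Real.cosh u ^ (-(w + 2)) * Real.cosh u := by
      rw [← Real.rpow_add_one hp.ne']
      congr 1
      ring
    have h5 : Real.cosh u ^ (-(w + 1) - 1) = Real.cosh u ^ (-(w + 2)) := by
      congr 1
      ring
    rw [h3, h4, h5]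
    have h6 := Real.cosh_sq u
    linear_combination ((w+1) * Real.cosh u ^ (-(w + 2))) * h6
  have h7 := integral_eq_zero_of_hasDerivAt_of_integrable hd
    ((hi2.const_mul _).sub (hi1.const_mul _)) (by
      refine hi1.mono' (Real.continuous_sinh.mul (cont_cosh _)).aestronglyMeasurable
        (Eventually.of_forall fun u => ?_)
      have hp := Real.cosh_pos u
      rw [norm_mul, Real.norm_of_nonneg (Real.rpow_nonneg hp.le _), Real.norm_eq_abs]
      have h8 : |Real.sinh u| ≤ Real.cosh u := by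
        rw [← Real.cosh_abs, Real.abs_sinh]
        exact (Real.sinh_lt_cosh _).le
      calc |Real.sinh u| * Real.cosh u ^ (-(w + 1)) ≤
          Real.cosh u * Real.cosh u ^ (-(w + 1)) :=
            mul_le_mul_of_nonneg_right h8 (Real.rpow_nonneg hp.le _)
        _ = Real.cosh u ^ (-w) := by
            rw [mul_comm, ← Real.rpow_add_one hp.ne']
            congr 1
            ring)
  rw [integral_sub (hi2.const_mul _) (hi1.const_mul _), integral_const_mul,
    integral_const_mul] at h7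
  have h8 : ∀ z, W (fun _ => 1) z = ∫ u : ℝ, Real.cosh u ^ (-z) := by
    intro z
    simp [W]
  rw [h8, h8]
  linarith

theorem W_anti {f : ℝ → ℝ} {r : ℝ} (h : Dec f r) {z z' : ℝ} (hz : -r < z) (hzz : z ≤ z') :
    W f z' ≤ W f z := by
  refine integral_mono (h.int (lt_of_lt_of_le hz hzz)) (h.int hz) fun u => ?_
  refine mul_le_mul_of_nonneg_left ?_ (h.2.1 u)
  exact Real.rpow_le_rpow_of_exponent_le (Real.one_le_cosh u) (by linarith)

theorem W_pos {f : ℝ → ℝ} {r : ℝ} (h : Dec f r) (hf : ∀ u, 0 < f u) {z : ℝ} (hz : -r < z) :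
    0 < W f z := by
  refine (integral_pos_iff_support_of_nonneg_ae (Eventually.of_forall fun u => ?_) (h.int hz)).2 ?_
  · exact mul_nonneg (hf u).le (Real.rpow_nonneg (Real.cosh_pos u).le _)
  · have : Function.support (fun u => f u * Real.cosh u ^ (-z)) = univ := by
      ext u
      simp only [Function.mem_support, mem_univ, iff_true]
      exact (mul_pos (hf u) (Real.rpow_pos_of_pos (Real.cosh_pos u) _)).ne'
    rw [this]
    simp

theorem W_nonneg {f : ℝ → ℝ} {r : ℝ} (h : Dec f r) {z : ℝ} :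
    0 ≤ W f z :=
  integral_nonneg fun u => mul_nonneg (h.2.1 u) (Real.rpow_nonneg (Real.cosh_pos u).le _)

theorem dec_one : Dec (fun _ => 1) 0 := by
  refine ⟨continuous_const, fun _ => zero_le_one, 1, fun u => ?_⟩
  rw [neg_zero, Real.rpow_zero, mul_one]

theorem dec_cosh (r : ℝ) : Dec (fun u => Real.cosh u ^ (-r)) r :=
  ⟨cont_cosh r, fun u => Real.rpow_nonneg (Real.cosh_pos u).le _, 1, fun u => by rw [one_mul]⟩

theorem Dec.mul {f g : ℝ → ℝ} {r s : ℝ} (hf : Dec f r) (hg : Dec g s) :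
    Dec (fun u => f u * g u) (r + s) := by
  obtain ⟨hc, h0, C, hC⟩ := hf
  obtain ⟨hc', h0', C', hC'⟩ := hg
  refine ⟨hc.mul hc', fun u => mul_nonneg (h0 u) (h0' u), C * C', fun u => ?_⟩
  rw [show -(r + s) = -r + -s by ring, Real.rpow_add (Real.cosh_pos u)]
  calc f u * g u ≤ (C * Real.cosh u ^ (-r)) * (C' * Real.cosh u ^ (-s)) :=
        mul_le_mul (hC u) (hC' u) (h0' u) ((h0 u).trans (hC u))
    _ = _ := by ring

/-! ### the functions `Cr` -/

theorem qa_facts {a : ℝ} (h0 : 0 < a) (h1 : a < π / 2) :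
    1 < qa a ∧ qa a < 2 ∧ 0 < qa a * a ∧ qa a * a < π := by
  have hpi := Real.pi_pos
  have hp : 0 < π - a := by linarith
  have h2 : 1 < qa a := by rw [qa, lt_div_iff₀ hp]; linarith
  have h3 : qa a < 2 := by rw [qa, div_lt_iff₀ hp]; linarith
  refine ⟨h2, h3, by positivity, ?_⟩
  rw [qa, div_mul_eq_mul_div, div_lt_iff₀ hp]
  nlinarith

theorem qa_mono {a b : ℝ} (h0 : 0 < a) (h1 : a < b) (h2 : b < π / 2) : qa a < qa b := by
  have hpi := Real.pi_pos
  rw [qa, qa]
  exact div_lt_div_of_pos_left hpi (by linarith) (by linarith)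

theorem den_pos {a : ℝ} (h0 : 0 < a) (h1 : a < π / 2) (x : ℝ) :
    0 < Real.cosh (qa a * x) + Real.cos (qa a * a) := by
  obtain ⟨h2, h3, h4, h5⟩ := qa_facts h0 h1
  have h6 := Real.one_le_cosh (qa a * x)
  have h7 : -1 < Real.cos (qa a * a) := by
    rw [← Real.cos_pi]
    exact Real.cos_lt_cos_of_nonneg_of_le_pi h4.le le_rfl h5
  linarith

theorem K_pos {a : ℝ} (h0 : 0 < a) (h1 : a < π / 2) :
    0 < qa a / 2 * Real.sin (qa a * a) := by
  obtain ⟨h2, h3, h4, h5⟩ := qa_facts h0 h1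
  have := Real.sin_pos_of_pos_of_lt_pi h4 h5
  positivity

theorem Cr_pos {a : ℝ} (h0 : 0 < a) (h1 : a < π / 2) (x : ℝ) : 0 < Cr a x :=
  div_pos (K_pos h0 h1) (den_pos h0 h1 x)

theorem Cr_cont {a : ℝ} (h0 : 0 < a) (h1 : a < π / 2) : Continuous fun u => Cr a (2 * u) := by
  unfold Cr
  refine continuous_const.div ?_ fun u => (den_pos h0 h1 (2 * u)).ne'
  exact (Real.continuous_cosh.comp (by fun_prop)).add continuous_const

theorem cosh_rpow_le {q u : ℝ} (hq : 0 ≤ q) :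
    Real.cosh u ^ (2 * q) ≤ 2 * Real.cosh (q * (2 * u)) := by
  have h1 : Real.cosh u ^ (2 * q) ≤ (Real.exp |u|) ^ (2 * q) :=
    Real.rpow_le_rpow (Real.cosh_pos u).le (cosh_le_exp u) (by linarith)
  rw [← Real.exp_mul] at h1
  have h2 := exp_le_cosh (q * (2 * u))
  rw [abs_mul, abs_mul, abs_of_nonneg hq, abs_of_nonneg (by norm_num : (0:ℝ) ≤ 2)] at h2
  calc Real.cosh u ^ (2 * q) ≤ Real.exp (|u| * (2 * q)) := h1
    _ = Real.exp (q * (2 * |u|)) := by congr 1; ring
    _ ≤ _ := h2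

theorem cosh_le_rpow {q u : ℝ} (hq : 0 ≤ q) :
    Real.cosh (q * (2 * u)) ≤ 2 ^ (2 * q) * Real.cosh u ^ (2 * q) := by
  have h1 := cosh_le_exp (q * (2 * u))
  rw [abs_mul, abs_mul, abs_of_nonneg hq, abs_of_nonneg (by norm_num : (0:ℝ) ≤ 2)] at h1
  have h2 : (Real.exp |u|) ^ (2 * q) ≤ (2 * Real.cosh u) ^ (2 * q) :=
    Real.rpow_le_rpow (Real.exp_pos _).le (exp_le_cosh u) (by linarith)
  rw [← Real.exp_mul, Real.mul_rpow (by norm_num) (Real.cosh_pos u).le] at h2
  calc Real.cosh (q * (2 * u)) ≤ Real.exp (q * (2 * |u|)) := h1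
    _ = Real.exp (|u| * (2 * q)) := by congr 1; ring
    _ ≤ _ := h2

theorem Cr_dec {a : ℝ} (h0 : 0 < a) (h1 : a < π / 2) : Dec (fun u => Cr a (2 * u)) (2 * qa a) := by
  obtain ⟨h2, h3, h4, h5⟩ := qa_facts h0 h1
  have hcos : |Real.cos (qa a * a)| < 1 := by
    rw [abs_lt]
    constructor
    · rw [← Real.cos_pi]
      exact Real.cos_lt_cos_of_nonneg_of_le_pi h4.le le_rfl h5
    · rw [← Real.cos_zero]
      exact Real.cos_lt_cos_of_nonneg_of_le_pi le_rfl h5.le h4
  refine ⟨Cr_cont h0 h1, fun u => (Cr_pos h0 h1 _).le,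
    2 * (qa a / 2 * Real.sin (qa a * a)) / (1 - |Real.cos (qa a * a)|), fun u => ?_⟩
  have hK := K_pos h0 h1
  have hc := cosh_rpow_le (q := qa a) (u := u) (by linarith)
  have hp : 0 < Real.cosh u ^ (2 * qa a) := Real.rpow_pos_of_pos (Real.cosh_pos u) _
  have h6 : (1 - |Real.cos (qa a * a)|) * (Real.cosh u ^ (2 * qa a) / 2) ≤
      Real.cosh (qa a * (2 * u)) + Real.cos (qa a * a) := by
    have h7 : (1 - |Real.cos (qa a * a)|) * (Real.cosh u ^ (2 * qa a) / 2) ≤
        (1 - |Real.cos (qa a * a)|) * Real.cosh (qa a * (2 * u)) :=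
      mul_le_mul_of_nonneg_left (by linarith) (by linarith)
    have h8 := Real.one_le_cosh (qa a * (2 * u))
    have h9 := neg_abs_le (Real.cos (qa a * a))
    have h10 := abs_nonneg (Real.cos (qa a * a))
    nlinarith
  have h11 : 0 < (1 - |Real.cos (qa a * a)|) := by linarith
  change qa a / 2 * Real.sin (qa a * a) / (Real.cosh (qa a * (2 * u)) + Real.cos (qa a * a)) ≤ _
  rw [Real.rpow_neg (Real.cosh_pos u).le, div_le_iff₀ (den_pos h0 h1 _)]
  have h12 : 2 * (qa a / 2 * Real.sin (qa a * a)) / (1 - |Real.cos (qa a * a)|) *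
      (Real.cosh u ^ (2 * qa a))⁻¹ *
      ((1 - |Real.cos (qa a * a)|) * (Real.cosh u ^ (2 * qa a) / 2)) =
      qa a / 2 * Real.sin (qa a * a) := by
    field_simp
  calc qa a / 2 * Real.sin (qa a * a) = _ := h12.symm
    _ ≤ _ := mul_le_mul_of_nonneg_left h6 (by positivity)

theorem Cr_lower {a : ℝ} (h0 : 0 < a) (h1 : a < π / 2) :
    ∃ k : ℝ, 0 < k ∧ ∀ u, k * Real.cosh u ^ (-(2 * qa a)) ≤ Cr a (2 * u) := by
  obtain ⟨h2, h3, h4, h5⟩ := qa_facts h0 h1
  have hK := K_pos h0 h1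
  have h2p : (0:ℝ) < 2 ^ (2 * qa a) := Real.rpow_pos_of_pos (by norm_num) _
  refine ⟨qa a / 2 * Real.sin (qa a * a) / (2 * 2 ^ (2 * qa a)), by positivity, fun u => ?_⟩
  have hp : 0 < Real.cosh u ^ (2 * qa a) := Real.rpow_pos_of_pos (Real.cosh_pos u) _
  change _ ≤ qa a / 2 * Real.sin (qa a * a) /
    (Real.cosh (qa a * (2 * u)) + Real.cos (qa a * a))
  rw [Real.rpow_neg (Real.cosh_pos u).le, ← div_eq_mul_inv, div_div]
  refine div_le_div_of_nonneg_left hK.le (den_pos h0 h1 _) ?_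
  have h6 := cosh_le_rpow (q := qa a) (u := u) (by linarith)
  have h7 := Real.one_le_cosh (qa a * (2 * u))
  have h8 := Real.cos_le_one (qa a * a)
  linarith

/-! ### the Mellin transform identity -/

/-- `c_a(z)` -/
noncomputable def cc (a z : ℝ) : ℝ := W (fun u => Cr a (2 * u)) z
/-- `I_ab(z)` -/
noncomputable def II (a b z : ℝ) : ℝ := W (fun u => Cr a (2 * u) * Cr b (2 * u)) z

theorem fub {a b z : ℝ} (ha : 0 < a) (ha' : a < π / 2) (hb : 0 < b) (hb' : b < π / 2)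
    (hz : 0 < z) :
    ∫ p : ℝ × ℝ, (Cr a (2 * p.1) - Cr a (2 * p.2)) * (Cr b (2 * p.1) - Cr b (2 * p.2)) *
      (Real.cosh p.1 * Real.cosh p.2) ^ (-z) =
    2 * II a b z * W (fun _ => 1) z - 2 * cc a z * cc b z := by
  obtain ⟨q1, -⟩ := qa_facts ha ha'
  obtain ⟨q2, -⟩ := qa_facts hb hb'
  have hA := (Cr_dec ha ha').int (z := z) (by linarith)
  have hB := (Cr_dec hb hb').int (z := z) (by linarith)
  have hAB := ((Cr_dec ha ha').mul (Cr_dec hb hb')).int (z := z) (by linarith)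
  have h1 := dec_one.int (z := z) (by linarith)
  have i1 := hAB.mul_prod h1
  have i2 := h1.mul_prod hAB
  have i3 := hA.mul_prod hB
  have i4 := hB.mul_prod hA
  have e : ∀ p : ℝ × ℝ, (Cr a (2 * p.1) - Cr a (2 * p.2)) * (Cr b (2 * p.1) - Cr b (2 * p.2)) *
      (Real.cosh p.1 * Real.cosh p.2) ^ (-z) =
      (Cr a (2 * p.1) * Cr b (2 * p.1) * Real.cosh p.1 ^ (-z)) * (1 * Real.cosh p.2 ^ (-z)) +
      (1 * Real.cosh p.1 ^ (-z)) * (Cr a (2 * p.2) * Cr b (2 * p.2) * Real.cosh p.2 ^ (-z)) -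
      (Cr a (2 * p.1) * Real.cosh p.1 ^ (-z)) * (Cr b (2 * p.2) * Real.cosh p.2 ^ (-z)) -
      (Cr b (2 * p.1) * Real.cosh p.1 ^ (-z)) * (Cr a (2 * p.2) * Real.cosh p.2 ^ (-z)) := by
    intro p
    rw [Real.mul_rpow (Real.cosh_pos _).le (Real.cosh_pos _).le]
    ring
  simp_rw [e]
  have f1 : ∫ p : ℝ × ℝ, (Cr a (2 * p.1) * Cr b (2 * p.1) * Real.cosh p.1 ^ (-z)) *
      (1 * Real.cosh p.2 ^ (-z)) = II a b z * W (fun _ => 1) z :=
    integral_prod_mul (fun u => Cr a (2 * u) * Cr b (2 * u) * Real.cosh u ^ (-z))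
      (fun u => 1 * Real.cosh u ^ (-z))
  have f2 : ∫ p : ℝ × ℝ, (1 * Real.cosh p.1 ^ (-z)) *
      (Cr a (2 * p.2) * Cr b (2 * p.2) * Real.cosh p.2 ^ (-z)) = W (fun _ => 1) z * II a b z :=
    integral_prod_mul (fun u => 1 * Real.cosh u ^ (-z))
      (fun u => Cr a (2 * u) * Cr b (2 * u) * Real.cosh u ^ (-z))
  have f3 : ∫ p : ℝ × ℝ, (Cr a (2 * p.1) * Real.cosh p.1 ^ (-z)) *
      (Cr b (2 * p.2) * Real.cosh p.2 ^ (-z)) = cc a z * cc b z :=
    integral_prod_mul (fun u => Cr a (2 * u) * Real.cosh u ^ (-z))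
      (fun u => Cr b (2 * u) * Real.cosh u ^ (-z))
  have f4 : ∫ p : ℝ × ℝ, (Cr b (2 * p.1) * Real.cosh p.1 ^ (-z)) *
      (Cr a (2 * p.2) * Real.cosh p.2 ^ (-z)) = cc b z * cc a z :=
    integral_prod_mul (fun u => Cr b (2 * u) * Real.cosh u ^ (-z))
      (fun u => Cr a (2 * u) * Real.cosh u ^ (-z))
  have g1 := integral_add i1 i2
  have g2 := integral_sub (i1.add i2) i3
  have g3 := integral_sub ((i1.add i2).sub i3) i4
  simp only [Pi.add_apply, Pi.sub_apply] at g1 g2 g3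
  rw [← Measure.volume_eq_prod] at g1 g2 g3
  rw [g3, g2, g1, f1, f2, f3, f4]
  ring

/-- the function which vanishes identically -/
noncomputable def Zt (a b z : ℝ) : ℝ :=
  (z + 1) * (z + 3) * W (fun u => Real.cosh u ^ (-(4 : ℝ))) z * II a b z -
    z * (z + 2) * (cc a z * cc b z)

theorem Zt_eq {a b z : ℝ} (hz : 0 < z) :
    Zt a b z = z * (z + 2) / 2 * (2 * II a b z * W (fun _ => 1) z - 2 * cc a z * cc b z) := by
  have h1 := W_one_rec hz
  have h2 := W_one_rec (w := z + 2) (by linarith)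
  have h3 : W (fun _ => 1) (z + 2 + 2) = W (fun u => Real.cosh u ^ (-(4 : ℝ))) z := by
    unfold W
    refine integral_congr_ae (Eventually.of_forall fun u => ?_)
    change 1 * Real.cosh u ^ (-(z + 2 + 2)) = Real.cosh u ^ (-(4 : ℝ)) * Real.cosh u ^ (-z)
    rw [one_mul, ← Real.rpow_add (Real.cosh_pos u)]
    congr 1
    ring
  rw [Zt, ← h3]
  linear_combination (-(z + 2) * II a b z) * h1 + (-(z + 1) * II a b z) * h2

theorem Zt_ana {a b r : ℝ} (ha : 0 < a) (ha' : a < π / 2) (hb : 0 < b) (hb' : b < π / 2)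
    (hr : r ≤ 2 * qa a) (hr' : r ≤ 2 * qa b) (hr4 : r ≤ 4) :
    AnalyticOnNhd ℝ (Zt a b) (Ioi (-r)) := by
  obtain ⟨q1, -⟩ := qa_facts ha ha'
  obtain ⟨q2, -⟩ := qa_facts hb hb'
  have m : ∀ {s : ℝ}, r ≤ s → Ioi (-r) ⊆ Ioi (-s) := fun h => Ioi_subset_Ioi (by linarith)
  have hA : AnalyticOnNhd ℝ (cc a) (Ioi (-r)) := (Cr_dec ha ha').ana.mono (m hr)
  have hB : AnalyticOnNhd ℝ (cc b) (Ioi (-r)) := (Cr_dec hb hb').ana.mono (m hr')
  have hAB : AnalyticOnNhd ℝ (II a b) (Ioi (-r)) :=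
    ((Cr_dec ha ha').mul (Cr_dec hb hb')).ana.mono (m (by linarith))
  have h1 : AnalyticOnNhd ℝ (W (fun u => Real.cosh u ^ (-(4 : ℝ)))) (Ioi (-r)) :=
    (dec_cosh 4).ana.mono (m hr4)
  have hi : AnalyticOnNhd ℝ (fun z : ℝ => z) (Ioi (-r)) := analyticOnNhd_id
  exact ((((hi.add analyticOnNhd_const).mul (hi.add analyticOnNhd_const)).mul h1).mul hAB).sub
    ((hi.mul (hi.add analyticOnNhd_const)).mul (hA.mul hB))

theorem sum_eq (hB3 : S_B3) {n m : ℕ} {a b : Fin n → ℝ} {α β : Fin m → ℝ}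
    (hab : ∀ i, 0 < a i ∧ a i < π / 2 ∧ 0 < b i ∧ b i < π / 2)
    (hαβ : ∀ j, 0 < α j ∧ α j < π / 2 ∧ 0 < β j ∧ β j < π / 2)
    (h : ∀ S : ℝ, 0 < S → ∑ i, hS (a i) (b i) S = ∑ j, hS (α j) (β j) S) {z : ℝ} (hz : 0 < z) :
    ∑ i, Zt (a i) (b i) z = ∑ j, Zt (α j) (β j) z := by
  have key : ∀ {a b : ℝ}, (0 < a ∧ a < π / 2 ∧ 0 < b ∧ b < π / 2) →
      IntegrableOn (fun ξ => Real.cosh ξ ^ (-z) * hS a b (Real.sinh ξ ^ 2) * Real.sinh ξ) (Ioi 0) ∧
      Zt a b z = z * (z + 2) / 2 * (2 * π ^ 2) *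
        ∫ ξ in Ioi (0 : ℝ), Real.cosh ξ ^ (-z) * hS a b (Real.sinh ξ ^ 2) * Real.sinh ξ := by
    rintro a b ⟨h1, h2, h3, h4⟩
    obtain ⟨-, h5⟩ := hB3 a b h1 h2 h3 h4
    obtain ⟨-, h6, h7⟩ := h5 (fun x => x ^ (-z)) 1 z
      (fun x hx => (Real.continuousAt_rpow_const _ _ (Or.inl (by
        rw [mem_Ici] at hx; linarith))).continuousWithinAt) hz (fun x hx => by
        rw [one_mul, abs_of_nonneg (Real.rpow_nonneg (by linarith) _)])
    refine ⟨h6, ?_⟩
    rw [Zt_eq hz, ← h7, ← fub h1 h2 h3 h4 hz]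
    have hpi := Real.pi_pos
    field_simp
  simp_rw [(key (hab _)).2, (key (hαβ _)).2]
  rw [← Finset.mul_sum, ← Finset.mul_sum, ← integral_finsetSum _ fun i _ => (key (hab i)).1,
    ← integral_finsetSum _ fun i _ => (key (hαβ i)).1]
  congr 1
  refine setIntegral_congr_fun measurableSet_Ioi fun ξ hξ => ?_
  change ∑ i, Real.cosh ξ ^ (-z) * hS (a i) (b i) (Real.sinh ξ ^ 2) * Real.sinh ξ =
    ∑ j, Real.cosh ξ ^ (-z) * hS (α j) (β j) (Real.sinh ξ ^ 2) * Real.sinh ξ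
  rw [← Finset.sum_mul, ← Finset.sum_mul, ← Finset.mul_sum, ← Finset.mul_sum, h _ (by
    have := Real.sinh_pos_iff.2 hξ
    positivity)]

/-- the pole of `c_A` -/
theorem cc_tendsto {A : ℝ} (h0 : 0 < A) (h1 : A < π / 2) :
    Tendsto (cc A) (𝓝[>] (-(2 * qa A))) atTop := by
  obtain ⟨k, hk, hlow⟩ := Cr_lower h0 h1
  have hdec := Cr_dec h0 h1
  have hW3 : 0 < W (fun _ => 1) 3 := W_pos dec_one (fun _ => one_pos) (by norm_num)
  have hle : ∀ᶠ z in 𝓝[>] (-(2 * qa A)), k * W (fun _ => 1) 3 * (z + 2 * qa A)⁻¹ ≤ cc A z := by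
    have hmem : Ioo (-(2 * qa A)) (-(2 * qa A) + 1) ∈ 𝓝[>] (-(2 * qa A)) :=
      Ioo_mem_nhdsGT (by linarith)
    filter_upwards [hmem] with z hz
    obtain ⟨hz1, hz2⟩ := hz
    set w := z + 2 * qa A with hw
    have hw0 : 0 < w := by linarith
    have hw1 : w < 1 := by linarith
    have h2 : k * W (fun _ => 1) w ≤ cc A z := by
      rw [cc, W, W, ← integral_const_mul]
      refine integral_mono ((dec_one.int (z := w) (by linarith)).const_mul _)
        (hdec.int hz1) fun u => ?_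
      change k * (1 * Real.cosh u ^ (-w)) ≤ Cr A (2 * u) * Real.cosh u ^ (-z)
      have h3 : Real.cosh u ^ (-w) = Real.cosh u ^ (-(2 * qa A)) * Real.cosh u ^ (-z) := by
        rw [← Real.rpow_add (Real.cosh_pos u)]
        congr 1
        rw [hw]
        ring
      rw [one_mul, h3, ← mul_assoc]
      exact mul_le_mul_of_nonneg_right (hlow u) (Real.rpow_nonneg (Real.cosh_pos u).le _)
    refine le_trans ?_ h2
    rw [mul_assoc]
    refine mul_le_mul_of_nonneg_left ?_ hk.le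
    have h4 := W_one_rec hw0
    have h5 : W (fun _ => 1) 3 ≤ W (fun _ => 1) (w + 2) :=
      W_anti dec_one (by linarith) (by linarith)
    rw [← div_eq_mul_inv, div_le_iff₀ hw0]
    nlinarith
  refine tendsto_atTop_mono' _ hle ?_
  have h6 : Tendsto (fun z => (z + 2 * qa A)⁻¹) (𝓝[>] (-(2 * qa A))) atTop := by
    refine tendsto_inv_nhdsGT_zero.comp ?_
    rw [tendsto_nhdsWithin_iff]
    constructor
    · have h7 : Tendsto (fun z : ℝ => z + 2 * qa A) (𝓝 (-(2 * qa A))) (𝓝 (-(2 * qa A) + 2 * qa A)) :=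
        (continuous_id.add continuous_const).tendsto _
      rw [neg_add_cancel] at h7
      exact h7.mono_left nhdsWithin_le_nhds
    · filter_upwards [self_mem_nhdsWithin] with z hz
      rw [mem_Ioi] at hz ⊢
      linarith
  exact h6.const_mul_atTop (mul_pos hk hW3)

theorem h_MN (hB3 : S_B3) : S_MN := by
  intro n m a b α β i₀ hab hαβ h
  by_contra hcon
  push Not at hcon
  obtain ⟨i1, -, hi1⟩ := Finset.exists_min_image Finset.univ (fun i => min (a i) (b i))
    ⟨i₀, Finset.mem_univ _⟩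
  set A := min (a i1) (b i1) with hA
  have hAi : ∀ i, A ≤ a i ∧ A ≤ b i := fun i => by
    have := hi1 i (Finset.mem_univ _)
    exact ⟨this.trans (min_le_left _ _), this.trans (min_le_right _ _)⟩
  have hAj : ∀ j, A < α j ∧ A < β j := fun j => by
    have h1 := (hi1 i₀ (Finset.mem_univ _)).trans_lt (hcon j)
    exact ⟨h1.trans_le (min_le_left _ _), h1.trans_le (min_le_right _ _)⟩
  have hA0 : 0 < A := lt_min (hab i1).1 (hab i1).2.2.1
  have hA1 : A < π / 2 := (min_le_left _ _).trans_lt (hab i1).2.1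
  obtain ⟨q1, q2, -⟩ := qa_facts hA0 hA1
  have hqle : ∀ {c : ℝ}, A ≤ c → c < π / 2 → qa A ≤ qa c := by
    intro c h1 h2
    rcases h1.eq_or_lt with h3 | h3
    · rw [h3]
    · exact (qa_mono hA0 h3 h2).le
  set r := 2 * qa A with hr
  have hana : AnalyticOnNhd ℝ (fun z => ∑ i, Zt (a i) (b i) z - ∑ j, Zt (α j) (β j) z)
      (Ioi (-r)) := by
    refine AnalyticOnNhd.sub ?_ ?_
    · refine Finset.analyticOnNhd_fun_sum _ fun i _ => ?_
      obtain ⟨h1, h2, h3, h4⟩ := hab i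
      have h5 := hqle (hAi i).1 h2
      have h6 := hqle (hAi i).2 h4
      exact Zt_ana h1 h2 h3 h4 (by linarith) (by linarith) (by linarith)
    · refine Finset.analyticOnNhd_fun_sum _ fun i _ => ?_
      obtain ⟨h1, h2, h3, h4⟩ := hαβ i
      have h5 := hqle (hAj i).1.le h2
      have h6 := hqle (hAj i).2.le h4
      exact Zt_ana h1 h2 h3 h4 (by linarith) (by linarith) (by linarith)
  have hzero : EqOn (fun z => ∑ i, Zt (a i) (b i) z - ∑ j, Zt (α j) (β j) z) 0 (Ioi (-r)) := by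
    refine hana.eqOn_zero_of_preconnected_of_eventuallyEq_zero isPreconnected_Ioi
      (z₀ := 1) (by rw [mem_Ioi]; linarith) ?_
    filter_upwards [Ioi_mem_nhds (show (0:ℝ) < 1 by norm_num)] with z hz
    change ∑ i, Zt (a i) (b i) z - ∑ j, Zt (α j) (β j) z = 0
    rw [sum_eq hB3 hab hαβ h hz, sub_self]
  -- the two sides near `-r`
  set J := W (fun u => Real.cosh u ^ (-(4 : ℝ))) with hJ
  set R : ℝ → ℝ := fun z => (z + 1) * (z + 3) * J z *
    (∑ i, II (a i) (b i) z - ∑ j, II (α j) (β j) z) +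
    z * (z + 2) * ∑ j, cc (α j) z * cc (β j) z with hR
  have hcont : ContinuousAt R (-r) := by
    have c1 : ContinuousAt J (-r) := ((dec_cosh 4).ana (-r) (by
      rw [mem_Ioi]; linarith)).continuousAt
    have c2 : ∀ {a b : ℝ}, (0 < a ∧ a < π / 2 ∧ 0 < b ∧ b < π / 2) →
        ContinuousAt (II a b) (-r) := by
      rintro a b ⟨h1, h2, h3, h4⟩
      obtain ⟨p1, -⟩ := qa_facts h1 h2
      obtain ⟨p2, -⟩ := qa_facts h3 h4
      exact (((Cr_dec h1 h2).mul (Cr_dec h3 h4)).ana (-r) (by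
        rw [mem_Ioi]; linarith)).continuousAt
    have c3 : ∀ {c : ℝ}, A < c → c < π / 2 → ContinuousAt (cc c) (-r) := by
      intro c h1 h2
      have h3 := qa_mono hA0 h1 h2
      exact ((Cr_dec (hA0.trans h1) h2).ana (-r) (by rw [mem_Ioi]; linarith)).continuousAt
    have c4 : ContinuousAt (fun z => ∑ i, II (a i) (b i) z) (-r) :=
      tendsto_finsetSum _ fun i _ => c2 (hab i)
    have c5 : ContinuousAt (fun z => ∑ j, II (α j) (β j) z) (-r) :=
      tendsto_finsetSum _ fun i _ => c2 (hαβ i)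
    have c6 : ContinuousAt (fun z => ∑ j, cc (α j) z * cc (β j) z) (-r) :=
      tendsto_finsetSum _ fun i _ => (c3 (hAj i).1 (hαβ i).2.1).mul
        (c3 (hAj i).2 (hαβ i).2.2.2)
    have ci : ContinuousAt (fun z : ℝ => z) (-r) := continuousAt_id
    exact ((((ci.add continuousAt_const).mul (ci.add continuousAt_const)).mul c1).mul
      (c4.sub c5)).add ((ci.mul (ci.add continuousAt_const)).mul c6)
  have hlimR : Tendsto R (𝓝[>] (-r)) (𝓝 (R (-r))) := hcont.tendsto.mono_left nhdsWithin_le_nhds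
  -- lower bound of the left hand side
  obtain ⟨o, ho0, ho1, hAo, hoA⟩ : ∃ o : ℝ, 0 < o ∧ o < π / 2 ∧ A ≤ o ∧
      ∀ z, cc (a i1) z * cc (b i1) z = cc A z * cc o z := by
    obtain ⟨h1, h2, h3, h4⟩ := hab i1
    rcases min_choice (a i1) (b i1) with h5 | h5
    · refine ⟨b i1, h3, h4, min_le_right _ _, fun z => ?_⟩
      rw [hA, h5]
    · refine ⟨a i1, h1, h2, min_le_left _ _, fun z => ?_⟩
      rw [hA, h5, mul_comm]
  have hcc0 : 0 < cc o 0 := by
    obtain ⟨p1, -⟩ := qa_facts ho0 ho1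
    exact W_pos (Cr_dec ho0 ho1) (fun u => Cr_pos ho0 ho1 _) (by linarith)
  have hneigh : Ioo (-r) (-2) ∈ 𝓝[>] (-r) := Ioo_mem_nhdsGT (by linarith)
  have hlow : ∀ᶠ z in 𝓝[>] (-r), cc A z * (z * (z + 2) * cc o 0) ≤ R z := by
    filter_upwards [hneigh] with z hz
    obtain ⟨hz1, hz2⟩ := hz
    have h1 := hzero (show z ∈ Ioi (-r) from hz1)
    change ∑ i, Zt (a i) (b i) z - ∑ j, Zt (α j) (β j) z = 0 at h1
    have h2 : R z = z * (z + 2) * ∑ i, cc (a i) z * cc (b i) z := by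
      have e1 : ∑ i, Zt (a i) (b i) z = (z + 1) * (z + 3) * J z * ∑ i, II (a i) (b i) z -
          z * (z + 2) * ∑ i, cc (a i) z * cc (b i) z := by
        rw [Finset.mul_sum, Finset.mul_sum, ← Finset.sum_sub_distrib]
        rfl
      have e2 : ∑ j, Zt (α j) (β j) z = (z + 1) * (z + 3) * J z * ∑ j, II (α j) (β j) z -
          z * (z + 2) * ∑ j, cc (α j) z * cc (β j) z := by
        rw [Finset.mul_sum, Finset.mul_sum, ← Finset.sum_sub_distrib]
        rfl
      rw [e1, e2] at h1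
      rw [hR]
      linear_combination h1
    rw [h2]
    have hzz : 0 < z * (z + 2) := by nlinarith
    have h3 : cc (a i1) z * cc (b i1) z ≤ ∑ i, cc (a i) z * cc (b i) z :=
      Finset.single_le_sum (f := fun i => cc (a i) z * cc (b i) z)
        (fun i _ => mul_nonneg (W_nonneg (Cr_dec (hab i).1 (hab i).2.1))
          (W_nonneg (Cr_dec (hab i).2.2.1 (hab i).2.2.2))) (Finset.mem_univ i1)
    rw [hoA] at h3
    have h4 : cc o 0 ≤ cc o z := by
      have h5 := hqle hAo ho1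
      exact W_anti (Cr_dec ho0 ho1) (by linarith) (by linarith)
    have h5 : 0 ≤ cc A z := W_nonneg (Cr_dec hA0 hA1)
    calc cc A z * (z * (z + 2) * cc o 0) ≤ cc A z * (z * (z + 2) * cc o z) := by gcongr
      _ = z * (z + 2) * (cc A z * cc o z) := by ring
      _ ≤ _ := mul_le_mul_of_nonneg_left h3 hzz.le
  have hinf : Tendsto (fun z => cc A z * (z * (z + 2) * cc o 0)) (𝓝[>] (-r)) atTop := by
    refine (cc_tendsto hA0 hA1).atTop_mul_pos (C := (-r) * (-r + 2) * cc o 0) ?_ ?_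
    · refine mul_pos ?_ hcc0
      nlinarith
    · have : ContinuousAt (fun z : ℝ => z * (z + 2) * cc o 0) (-r) := by fun_prop
      exact this.tendsto.mono_left nhdsWithin_le_nhds
  exact not_tendsto_atTop_of_tendsto_nhds hlimR (tendsto_atTop_mono' _ hlow hinf)

end Pool.Agent.H390.QT
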